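import Pool.Agent.H37.DL.Asm

/-! # Module A2 of `H37/DL/Asm`: change of measure -/

open MeasureTheory ProbabilityTheory Filter Topology Set
open scoped ENNReal

namespace Pool.Agent.H59.DL

open Pool.Agent.H37.DL

variable {Ω : Type*} [MeasurableSpace Ω] {P : Measure Ω} [IsProbabilityMeasure P]
  {Pi : Ω → C(unitInterval, ℝ)}

theorem measurable_ext' (hPi : Measurable Pi) (s : ℝ) : Measurable fun ω => ext (Pi ω) s := by
  unfold Pool.Agent.H37.DL.ext
  have h : Continuous fun π : C(unitInterval, ℝ) => π (Set.projIcc 0 1 zero_le_one s) := by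
    fun_prop
  exact h.measurable.comp hPi

theorem continuous_eta (t : ℝ) : Continuous fun π : C(unitInterval, ℝ) => eta π t := by
  apply ContinuousMap.continuous_of_continuous_uncurry
  show Continuous fun p : C(unitInterval, ℝ) × Set.Icc (0 : ℝ) (1 / 2) =>
    ext p.1 (t + p.2) - ext p.1 t
  unfold Pool.Agent.H37.DL.ext
  fun_prop

theorem measurable_eta' (hPi : Measurable Pi) (t : ℝ) : Measurable fun ω => eta (Pi ω) t :=
  (continuous_eta t).measurable.comp hPi

theorem exists_density' (hPi : Measurable Pi) {t : ℝ}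
    (hac : P.map (fun ω => eta (Pi ω) t) ≪ P.map (fun ω => eta (Pi ω) 0)) :
    ∃ ρ : Ω → ℝ, Integrable ρ P ∧ (∀ ω, 0 ≤ ρ ω) ∧ ∫ ω, ρ ω ∂P = 1 ∧
      ∀ B : Set C(Set.Icc (0 : ℝ) (1 / 2), ℝ), MeasurableSet B →
        (P {ω | eta (Pi ω) t ∈ B}).toReal = ∫ ω in {ω | eta (Pi ω) 0 ∈ B}, ρ ω ∂P := by
  have hmt := measurable_eta' hPi t
  have hm0 := measurable_eta' hPi 0
  set μt := P.map (fun ω => eta (Pi ω) t) with hμt
  set μ0 := P.map (fun ω => eta (Pi ω) 0) with hμ0
  have : IsProbabilityMeasure μt := Measure.isProbabilityMeasure_map hmt.aemeasurable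
  have : IsProbabilityMeasure μ0 := Measure.isProbabilityMeasure_map hm0.aemeasurable
  have hint : Integrable (fun x => (μt.rnDeriv μ0 x).toReal) μ0 :=
    Measure.integrable_toReal_rnDeriv
  have hmf : Measurable (fun x => (μt.rnDeriv μ0 x).toReal) :=
    (Measure.measurable_rnDeriv μt μ0).ennreal_toReal
  have key : ∀ B : Set C(Set.Icc (0 : ℝ) (1 / 2), ℝ), MeasurableSet B →
        (P {ω | eta (Pi ω) t ∈ B}).toReal =
        ∫ ω in {ω | eta (Pi ω) 0 ∈ B}, (μt.rnDeriv μ0 (eta (Pi ω) 0)).toReal ∂P := by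
    intro B hB
    have h1 : ∫ x in B, (μt.rnDeriv μ0 x).toReal ∂μ0 = μt.real B :=
      Measure.setIntegral_toReal_rnDeriv hac B
    have h2 : ∫ x in B, (μt.rnDeriv μ0 x).toReal ∂μ0 =
        ∫ ω in (fun ω => eta (Pi ω) 0) ⁻¹' B, (μt.rnDeriv μ0 (eta (Pi ω) 0)).toReal ∂P := by
      rw [hμ0]
      exact setIntegral_map hB hmf.aestronglyMeasurable hm0.aemeasurable
    have h3 : (P {ω | eta (Pi ω) t ∈ B}).toReal = μt.real B := by
      rw [Measure.real, hμt, Measure.map_apply hmt hB]
      rfl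
    rw [h3, ← h1, h2]
    rfl
  refine ⟨fun ω => (μt.rnDeriv μ0 (eta (Pi ω) 0)).toReal, ?_, fun ω => ENNReal.toReal_nonneg,
    ?_, key⟩
  · exact (integrable_map_measure hmf.aestronglyMeasurable hm0.aemeasurable).1 hint
  · have h := key Set.univ MeasurableSet.univ
    simp only [mem_univ, Set.ofPred_true, measure_univ, ENNReal.toReal_one,
      Measure.restrict_univ] at h
    exact h.symm

/-- measurability in `t` of the probabilities -/
theorem measurable_prob' (hPi : Measurable Pi) (k ε : ℝ) :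
    Measurable fun t : ℝ =>
      (P {ω | k ≤ (ε ^ 2)⁻¹ * (ext (Pi ω) (t + ε ^ 3) - ext (Pi ω) t)}).toReal := by
  have h1 : Measurable fun p : ℝ × Ω => ext (Pi p.2) p.1 := by
    have h2 : Measurable (Function.uncurry fun (s : ℝ) (ω : Ω) => ext (Pi ω) s) := by
      apply measurable_uncurry_of_continuous_of_measurable
      · intro ω
        show Continuous fun s => ext (Pi ω) s
        unfold Pool.Agent.H37.DL.ext
        fun_prop
      · intro s
        exact measurable_ext' hPi s
    exact h2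
  have h4 : Measurable fun p : ℝ × Ω =>
      (ε ^ 2)⁻¹ * (ext (Pi p.2) (p.1 + ε ^ 3) - ext (Pi p.2) p.1) := by
    have h5 : Measurable fun p : ℝ × Ω => ext (Pi p.2) (p.1 + ε ^ 3) :=
      h1.comp ((measurable_fst.add_const _).prodMk measurable_snd)
    exact (h5.sub h1).const_mul _
  have h6 : MeasurableSet {p : ℝ × Ω |
      k ≤ (ε ^ 2)⁻¹ * (ext (Pi p.2) (p.1 + ε ^ 3) - ext (Pi p.2) p.1)} :=
    measurableSet_le measurable_const h4
  exact (measurable_measure_prodMk_left h6).ennreal_toReal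

end Pool.Agent.H59.DL
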